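import Pool.Agent.Q100.Ienv

/-!
# `Ienv_b(A)` need not be norm-dense in `Ienv(A)`

The definitions are in `Pool/Agent/Q100/IenvDefs.lean`. The Banach space is
`ℝ × ℓ_∞(ω₁) × c₀(ℕ × ω₁)`.
-/

set_option autoImplicit false

namespace Pool.Agent.Results.MP_a5b52c_an.NotDense

open Q100.Ienv

/-- The negated form of Q1: there are a (real) Banach space `X` and a set `A ⊆ X*` such that
`Ienv_b(A)` is not norm-dense in `Ienv(A)`; some point of `Ienv(A)` has distance at least one from
`Ienv_b(A)`. -/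
theorem result : ∃ (X : Type) (_ : NormedAddCommGroup X) (_ : NormedSpace ℝ X)
    (_ : CompleteSpace X) (A : Set (StrongDual ℝ X)),
    ¬ (Ienv A ⊆ closure (IenvB A)) ∧
    ∃ z ∈ Ienv A, ∀ w ∈ IenvB A, 1 ≤ ‖w - z‖ :=
  ⟨XX, inferInstance, inferInstance, inferInstance, AA, not_dense, zeta, zeta_mem,
    fun _ hw => dist_ge hw⟩

end Pool.Agent.Results.MP_a5b52c_an.NotDense
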